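import Mathlib

set_option autoImplicit false

namespace Pool.Agent.Results.MP_a5c73b_lc.CupFree

/-- The Euclidean plane. -/
abbrev Plane := EuclideanSpace ℝ (Fin 2)

/-- The disk graph of the closed disks with centres `c i` and radii `r i`:
two different indices are adjacent iff the two closed disks intersect. -/
def diskGraph {ι : Type*} (c : ι → Plane) (r : ι → ℝ) : SimpleGraph ι where
  Adj i j := i ≠ j ∧ (Metric.closedBall (c i) (r i) ∩ Metric.closedBall (c j) (r j)).Nonempty
  symm := ⟨fun i j h => ⟨h.1.symm, by rw [Set.inter_comm]; exact h.2⟩⟩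
  loopless := ⟨fun i h => h.1 rfl⟩

/-- First coordinate of the centre in the orthonormal frame `b`. -/
noncomputable def xco {ι : Type*} (c : ι → Plane) (b : OrthonormalBasis (Fin 2) ℝ Plane)
    (i : ι) : ℝ := b.repr (c i) 0

/-- Second coordinate (the height) of the centre in the orthonormal frame `b`. -/
noncomputable def hco {ι : Type*} (c : ι → Plane) (b : OrthonormalBasis (Fin 2) ℝ Plane)
    (i : ι) : ℝ := b.repr (c i) 1

/-- `T` is a cup for the planar points `(h i, r i)`: any two of the points span a slope in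
`(-1, 1)`, and of any three of them the middle one lies strictly below the segment joining the
outer two. -/
def IsCup {ι : Type*} (h r : ι → ℝ) (T : Finset ι) : Prop :=
  (∀ i ∈ T, ∀ j ∈ T, i ≠ j → |r i - r j| < |h i - h j|) ∧
  (∀ i ∈ T, ∀ j ∈ T, ∀ l ∈ T, h i < h j → h j < h l →
    (h l - h i) * r j < (h l - h j) * r i + (h j - h i) * r l)

/-- `w` is a system of convex weights on `S`. -/
def IsWeight {ι : Type*} (S : Finset ι) (w : ι → ℝ) : Prop :=
  (∀ s ∈ S, 0 ≤ w s) ∧ ∑ s ∈ S, w s = 1

/-- The disks adjacent (or equal) to all disks of `S` whose height-radius point dominates a convex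
combination of the points of `S` and which lie weakly to the right of that combination. -/
def rightPart {ι : Type*} (c : ι → Plane) (r : ι → ℝ) (b : OrthonormalBasis (Fin 2) ℝ Plane)
    (S : Finset ι) : Set ι :=
  {d | (∀ s ∈ S, s = d ∨ (diskGraph c r).Adj s d) ∧ ∃ w : ι → ℝ, IsWeight S w ∧
    |hco c b d - ∑ s ∈ S, w s * hco c b s| ≤ r d - ∑ s ∈ S, w s * r s ∧
    ∑ s ∈ S, w s * xco c b s ≤ xco c b d}

/-- The same with `left` in place of `right`. -/
def leftPart {ι : Type*} (c : ι → Plane) (r : ι → ℝ) (b : OrthonormalBasis (Fin 2) ℝ Plane)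
    (S : Finset ι) : Set ι :=
  {d | (∀ s ∈ S, s = d ∨ (diskGraph c r).Adj s d) ∧ ∃ w : ι → ℝ, IsWeight S w ∧
    |hco c b d - ∑ s ∈ S, w s * hco c b s| ≤ r d - ∑ s ∈ S, w s * r s ∧
    xco c b d ≤ ∑ s ∈ S, w s * xco c b s}

section
variable {ι : Type*} (c : ι → Plane) (r : ι → ℝ) (b : OrthonormalBasis (Fin 2) ℝ Plane)

lemma dist_sq (i j : ι) :
    dist (c i) (c j) ^ 2 = (xco c b i - xco c b j) ^ 2 + (hco c b i - hco c b j) ^ 2 := by
  have h1 : dist (c i) (c j) = dist (b.repr (c i)) (b.repr (c j)) := by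
    rw [LinearIsometryEquiv.dist_map]
  rw [h1, EuclideanSpace.dist_eq, Real.sq_sqrt (by positivity), Fin.sum_univ_two,
    Real.dist_eq, Real.dist_eq, sq_abs, sq_abs]
  rfl

lemma meet_iff (hr : ∀ i, 0 ≤ r i) (i j : ι) :
    (Metric.closedBall (c i) (r i) ∩ Metric.closedBall (c j) (r j)).Nonempty ↔
      dist (c i) (c j) ≤ r i + r j := by
  rw [← Set.not_disjoint_iff_nonempty_inter, disjoint_closedBall_closedBall_iff (hr i) (hr j),
    not_lt]

lemma meet_iff_sq (hr : ∀ i, 0 ≤ r i) (i j : ι) :
    (Metric.closedBall (c i) (r i) ∩ Metric.closedBall (c j) (r j)).Nonempty ↔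
      (xco c b i - xco c b j) ^ 2 + (hco c b i - hco c b j) ^ 2 ≤ (r i + r j) ^ 2 := by
  rw [meet_iff c r hr, ← dist_sq]
  have := hr i
  have := hr j
  exact (pow_le_pow_iff_left₀ dist_nonneg (by positivity) (by norm_num)).symm

/-- Convexity of the cone condition. -/
lemma combo (hr : ∀ i, 0 ≤ r i) (S : Finset ι) (w : ι → ℝ) (hw : IsWeight S w) (d : ι)
    (hd : ∀ s ∈ S, s = d ∨ (diskGraph c r).Adj s d) :
    (∑ s ∈ S, w s * xco c b s - xco c b d) ^ 2 + (∑ s ∈ S, w s * hco c b s - hco c b d) ^ 2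
      ≤ (∑ s ∈ S, w s * r s + r d) ^ 2 ∧ 0 ≤ ∑ s ∈ S, w s * r s + r d := by
  have h0 : 0 ≤ ∑ s ∈ S, w s * r s := Finset.sum_nonneg fun s hs => mul_nonneg (hw.1 s hs) (hr s)
  refine ⟨?_, add_nonneg h0 (hr d)⟩
  have hdist : ∀ s ∈ S, dist (c s) (c d) ≤ r s + r d := by
    intro s hs
    rcases hd s hs with h | h
    · subst h
      rw [dist_self]
      have := hr s
      linarith
    · exact (meet_iff c r hr s d).1 h.2
  -- the vector combination
  have hv : ‖∑ s ∈ S, w s • (c s - c d)‖ ≤ ∑ s ∈ S, w s * r s + r d := by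
    calc ‖∑ s ∈ S, w s • (c s - c d)‖ ≤ ∑ s ∈ S, ‖w s • (c s - c d)‖ := norm_sum_le _ _
      _ ≤ ∑ s ∈ S, w s * (r s + r d) := by
          refine Finset.sum_le_sum fun s hs => ?_
          rw [norm_smul, Real.norm_eq_abs, abs_of_nonneg (hw.1 s hs), ← dist_eq_norm]
          exact mul_le_mul_of_nonneg_left (hdist s hs) (hw.1 s hs)
      _ = ∑ s ∈ S, w s * r s + r d := by
          simp only [mul_add]
          rw [Finset.sum_add_distrib, ← Finset.sum_mul, hw.2, one_mul]
  have hrepr : ‖∑ s ∈ S, w s • (c s - c d)‖ ^ 2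
      = (∑ s ∈ S, w s * xco c b s - xco c b d) ^ 2
        + (∑ s ∈ S, w s * hco c b s - hco c b d) ^ 2 := by
    rw [← LinearIsometryEquiv.norm_map b.repr, EuclideanSpace.norm_eq,
      Real.sq_sqrt (by positivity), Fin.sum_univ_two, Real.norm_eq_abs, Real.norm_eq_abs,
      sq_abs, sq_abs]
    have key : ∀ k : Fin 2, (b.repr (∑ s ∈ S, w s • (c s - c d))) k
        = ∑ s ∈ S, w s * (b.repr (c s)) k - (b.repr (c d)) k := by
      intro k
      simp only [map_sum, map_smul, map_sub]
      have : ∀ s ∈ S, (w s • (b.repr (c s) - b.repr (c d))) k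
          = w s * (b.repr (c s)) k - w s * (b.repr (c d)) k := by
        intro s _
        simp [mul_sub]
      rw [WithLp.ofLp_sum, Finset.sum_apply]
      rw [Finset.sum_congr rfl this, Finset.sum_sub_distrib, ← Finset.sum_mul, hw.2, one_mul]
    rw [key 0, key 1]
    rfl
  rw [← hrepr]
  exact pow_le_pow_left₀ (norm_nonneg _) hv 2

/-- Key inequality. -/
lemma key_ineq (A B a e X Xc xd hc hd Y R rc rd : ℝ)
    (hA : A = R + rc) (hA0 : 0 ≤ A)
    (h1 : (X - Xc) ^ 2 + (Y - hc) ^ 2 ≤ A ^ 2) (hB : B = |Y - hc|)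
    (ha : a = rd - R) (he : e = |hd - Y|) (h2 : e ≤ a)
    (h3 : X ≤ xd) (h4 : xd ≤ Xc) :
    (Xc - xd) ^ 2 + (hc - hd) ^ 2 ≤ (rc + rd) ^ 2 := by
  have hB0 : 0 ≤ B := by rw [hB]; exact abs_nonneg _
  have he0 : 0 ≤ e := by rw [he]; exact abs_nonneg _
  have hBA : B ≤ A := by
    have : B ^ 2 ≤ A ^ 2 := by
      rw [hB, sq_abs]; nlinarith [sq_nonneg (X - Xc)]
    exact abs_le_of_sq_le_sq' this hA0 |>.2
  have hx : (Xc - xd) ^ 2 ≤ (X - Xc) ^ 2 := by nlinarith
  have hh : (hc - hd) ^ 2 ≤ (B + e) ^ 2 := by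
    have : |hc - hd| ≤ B + e := by
      rw [hB, he]
      calc |hc - hd| = |(hc - Y) + (Y - hd)| := by ring_nf
        _ ≤ |hc - Y| + |Y - hd| := abs_add_le _ _
        _ = |Y - hc| + |hd - Y| := by rw [abs_sub_comm hc Y, abs_sub_comm Y hd]
    have h5 := abs_nonneg (hc - hd)
    calc (hc - hd) ^ 2 = |hc - hd| ^ 2 := (sq_abs _).symm
      _ ≤ (B + e) ^ 2 := by nlinarith
  have hB2 : (Y - hc) ^ 2 = B ^ 2 := by rw [hB, sq_abs]
  have hsum : rc + rd = A + a := by rw [hA, ha]; ring
  rw [hsum]
  nlinarith [mul_nonneg hB0 he0, mul_nonneg hA0 he0, mul_nonneg hA0 (le_trans he0 h2),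
    mul_le_mul hBA h2 he0 hA0]

lemma rightPart_isClique (hr : ∀ i, 0 ≤ r i) (S : Finset ι) :
    (diskGraph c r).IsClique (rightPart c r b S) := by
  have main : ∀ p ∈ rightPart c r b S, ∀ d ∈ rightPart c r b S, xco c b d ≤ xco c b p →
      (Metric.closedBall (c p) (r p) ∩ Metric.closedBall (c d) (r d)).Nonempty := by
    intro p hp d hd hpd
    obtain ⟨-, w, hw, hwd, hwx⟩ := hd
    obtain ⟨h1, h1'⟩ := combo c r b hr S w hw p hp.1
    rw [meet_iff_sq c r b hr]
    exact key_ineq _ _ _ _ _ (xco c b p) (xco c b d) (hco c b p) (hco c b d) _ _ (r p) (r d)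
      rfl h1' h1 rfl rfl rfl hwd hwx hpd
  intro p hp d hd hne
  refine ⟨hne, ?_⟩
  rcases le_total (xco c b d) (xco c b p) with h | h
  · exact main p hp d hd h
  · rw [Set.inter_comm]; exact main d hd p hp h

lemma leftPart_isClique (hr : ∀ i, 0 ≤ r i) (S : Finset ι) :
    (diskGraph c r).IsClique (leftPart c r b S) := by
  have main : ∀ p ∈ leftPart c r b S, ∀ d ∈ leftPart c r b S, xco c b p ≤ xco c b d →
      (Metric.closedBall (c p) (r p) ∩ Metric.closedBall (c d) (r d)).Nonempty := by
    intro p hp d hd hpd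
    obtain ⟨-, w, hw, hwd, hwx⟩ := hd
    obtain ⟨h1, h1'⟩ := combo c r b hr S w hw p hp.1
    rw [meet_iff_sq c r b hr]
    have := key_ineq _ _ _ _ (-(∑ s ∈ S, w s * xco c b s)) (-(xco c b p)) (-(xco c b d))
      (hco c b p) (hco c b d) _ _ (r p) (r d)
      rfl h1' (by nlinarith [h1]) rfl rfl rfl hwd (by linarith) (by linarith)
    nlinarith [this]
  intro p hp d hd hne
  refine ⟨hne, ?_⟩
  rcases le_total (xco c b p) (xco c b d) with h | h
  · exact main p hp d hd h
  · rw [Set.inter_comm]; exact main d hd p hp h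

end

/-! ### The support relation in the height-radius plane -/

section
variable {ι : Type*}

/-- Support: the point `(h d, r d)` dominates a convex combination of the points of `S`. -/
def Supp (h r : ι → ℝ) (S : Finset ι) (d : ι) : Prop :=
  ∃ w : ι → ℝ, IsWeight S w ∧ |h d - ∑ s ∈ S, w s * h s| ≤ r d - ∑ s ∈ S, w s * r s

lemma supp_self [DecidableEq ι] (h r : ι → ℝ) {S : Finset ι} {d : ι} (hd : d ∈ S) :
    Supp h r S d := by
  refine ⟨fun s => if s = d then 1 else 0, ⟨fun s _ => by dsimp only; split_ifs <;> norm_num, ?_⟩, ?_⟩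
  · simp [hd]
  · simp [hd]

/-- Transitivity. -/
lemma supp_trans [DecidableEq ι] (h r : ι → ℝ) {S : Finset ι} {p d : ι} (hp : p ∉ S)
    (hpS : Supp h r S p) (hd : Supp h r (insert p S) d) : Supp h r S d := by
  obtain ⟨v, hv, hvp⟩ := hpS
  obtain ⟨w, hw, hwd⟩ := hd
  refine ⟨fun s => w s + w p * v s, ⟨fun s hs => ?_, ?_⟩, ?_⟩
  · have h1 := hw.1 s (Finset.mem_insert_of_mem hs)
    have h2 := hw.1 p (Finset.mem_insert_self _ _)
    have h3 := hv.1 s hs
    positivity
  · have h1 := hw.2
    rw [Finset.sum_insert hp] at h1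
    rw [Finset.sum_add_distrib, ← Finset.mul_sum, hv.2]
    linarith
  · have hwp := hw.1 p (Finset.mem_insert_self _ _)
    rw [Finset.sum_insert hp, Finset.sum_insert hp] at hwd
    have e1 : ∑ s ∈ S, (w s + w p * v s) * h s = ∑ s ∈ S, w s * h s + w p * ∑ s ∈ S, v s * h s := by
      rw [Finset.mul_sum, ← Finset.sum_add_distrib]
      exact Finset.sum_congr rfl fun s _ => by ring
    have e2 : ∑ s ∈ S, (w s + w p * v s) * r s = ∑ s ∈ S, w s * r s + w p * ∑ s ∈ S, v s * r s := by
      rw [Finset.mul_sum, ← Finset.sum_add_distrib]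
      exact Finset.sum_congr rfl fun s _ => by ring
    rw [e1, e2]
    set H := ∑ s ∈ S, w s * h s
    set R := ∑ s ∈ S, w s * r s
    set H' := ∑ s ∈ S, v s * h s
    set R' := ∑ s ∈ S, v s * r s
    rw [abs_le] at hvp hwd ⊢
    constructor
    · nlinarith [mul_le_mul_of_nonneg_left hvp.1 hwp, mul_le_mul_of_nonneg_left hvp.2 hwp]
    · nlinarith [mul_le_mul_of_nonneg_left hvp.1 hwp, mul_le_mul_of_nonneg_left hvp.2 hwp]

/-- Every finite set is supported by a cup inside it. -/
lemma exists_cup [DecidableEq ι] (h r : ι → ℝ) (K : Finset ι) :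
    ∃ S ⊆ K, IsCup h r S ∧ ∀ d ∈ K, Supp h r S d := by
  classical
  -- a supporting subset of minimal cardinality
  let P : Finset (Finset ι) := K.powerset.filter fun S => ∀ d ∈ K, Supp h r S d
  have hPne : P.Nonempty := ⟨K, by
    simp only [P, Finset.mem_filter, Finset.mem_powerset, subset_refl, true_and]
    exact fun d hd => supp_self h r hd⟩
  obtain ⟨S, hSP, hmin⟩ := Finset.exists_min_image P Finset.card hPne
  simp only [P, Finset.mem_filter, Finset.mem_powerset] at hSP
  obtain ⟨hSK, hSd⟩ := hSP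
  -- no element of `S` is supported by the others
  have hirr : ∀ p ∈ S, ¬ Supp h r (S.erase p) p := by
    intro p hp hsupp
    have hmem : S.erase p ∈ P := by
      simp only [P, Finset.mem_filter, Finset.mem_powerset]
      refine ⟨(Finset.erase_subset _ _).trans hSK, fun d hd => ?_⟩
      refine supp_trans h r (Finset.notMem_erase p S) hsupp ?_
      rw [Finset.insert_erase hp]
      exact hSd d hd
    have := hmin _ hmem
    have := Finset.card_erase_lt_of_mem hp
    omega
  refine ⟨S, hSK, ⟨?_, ?_⟩, hSd⟩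
  · intro i hi j hj hij
    by_contra hcon
    push Not at hcon
    -- one of the two is supported by the other
    have aux : ∀ i ∈ S, ∀ j ∈ S, i ≠ j → |h i - h j| ≤ r i - r j → False := by
      intro i hi j hj hij hle
      refine hirr i hi ⟨fun s => if s = j then 1 else 0,
        ⟨fun s _ => by dsimp only; split_ifs <;> norm_num, ?_⟩, ?_⟩
      · simp [hj, hij.symm]
      · simp [hj, hij.symm, hle]
    rcases le_total (r j) (r i) with hle | hle
    · rw [abs_of_nonneg (sub_nonneg.2 hle)] at hcon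
      exact aux i hi j hj hij hcon
    · rw [abs_of_nonpos (sub_nonpos.2 hle), neg_sub] at hcon
      rw [abs_sub_comm] at hcon
      exact aux j hj i hi hij.symm hcon
  · intro i hi j hj l hl hij hjl
    by_contra hcon
    push Not at hcon
    have hij' : i ≠ j := fun e => by subst e; exact lt_irrefl _ hij
    have hjl' : l ≠ j := fun e => by subst e; exact lt_irrefl _ hjl
    have hil' : i ≠ l := fun e => by subst e; exact lt_irrefl _ (hij.trans hjl)
    have hpos : 0 < h l - h i := by linarith
    refine hirr j hj ⟨fun s => if s = i then (h l - h j) / (h l - h i) else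
      if s = l then (h j - h i) / (h l - h i) else 0, ⟨fun s _ => ?_, ?_⟩, ?_⟩
    · dsimp only
      split_ifs
      · exact div_nonneg (by linarith) hpos.le
      · exact div_nonneg (by linarith) hpos.le
      · exact le_rfl
    · have : ∀ s ∈ S.erase j, (if s = i then (h l - h j) / (h l - h i) else
          if s = l then (h j - h i) / (h l - h i) else 0) =
          (if s = i then (h l - h j) / (h l - h i) else 0)
          + (if s = l then (h j - h i) / (h l - h i) else 0) := by
        intro s _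
        by_cases h1 : s = i
        · subst h1; simp [hil']
        · simp [h1]
      rw [Finset.sum_congr rfl this, Finset.sum_add_distrib]
      simp only [Finset.sum_ite_eq', Finset.mem_erase, hi, hl, hij', hjl', ne_eq, not_false_eq_true,
        and_self, if_true]
      field_simp
      ring
    · have gen : ∀ g : ι → ℝ, ∑ s ∈ S.erase j, (if s = i then (h l - h j) / (h l - h i) else
          if s = l then (h j - h i) / (h l - h i) else 0) * g s =
          (h l - h j) / (h l - h i) * g i + (h j - h i) / (h l - h i) * g l := by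
        intro g
        have : ∀ s ∈ S.erase j, (if s = i then (h l - h j) / (h l - h i) else
            if s = l then (h j - h i) / (h l - h i) else 0) * g s =
            (if s = i then (h l - h j) / (h l - h i) * g i else 0)
            + (if s = l then (h j - h i) / (h l - h i) * g l else 0) := by
          intro s _
          by_cases h1 : s = i
          · subst h1; simp [hil']
          · by_cases h2 : s = l
            · subst h2; simp [h1]
            · simp [h1, h2]
        rw [Finset.sum_congr rfl this, Finset.sum_add_distrib]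
        simp only [Finset.sum_ite_eq', Finset.mem_erase, hi, hl, hij', hjl', ne_eq,
          not_false_eq_true, and_self, if_true]
      rw [gen h, gen r]
      have e1 : h j - ((h l - h j) / (h l - h i) * h i + (h j - h i) / (h l - h i) * h l) = 0 := by
        field_simp
        ring
      rw [e1, abs_zero]
      have e2 : r j - ((h l - h j) / (h l - h i) * r i + (h j - h i) / (h l - h i) * r l)
          = ((h l - h i) * r j - ((h l - h j) * r i + (h j - h i) * r l)) / (h l - h i) := by
        field_simp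
      rw [e2]
      exact div_nonneg (by linarith) hpos.le

end

/-- **Maximum clique in disk graphs without long cups.** -/
theorem result {ι : Type*} (c : ι → Plane) (r : ι → ℝ) (hr : ∀ i, 0 ≤ r i)
    (b : OrthonormalBasis (Fin 2) ℝ Plane) (k : ℕ)
    (hk : ∀ T : Finset ι, IsCup (hco c b) r T → T.card ≤ k) :
    (∀ S : Finset ι, (diskGraph c r).IsClique (rightPart c r b S) ∧
      (diskGraph c r).IsClique (leftPart c r b S)) ∧
    (∀ K : Finset ι, (diskGraph c r).IsClique (K : Set ι) →
      ∃ S : Finset ι, S ⊆ K ∧ S.card ≤ k ∧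
        (K : Set ι) ⊆ rightPart c r b S ∪ leftPart c r b S) := by
  classical
  refine ⟨fun S => ⟨rightPart_isClique c r b hr S, leftPart_isClique c r b hr S⟩, ?_⟩
  intro K hK
  obtain ⟨S, hSK, hcup, hS⟩ := exists_cup (hco c b) r K
  refine ⟨S, hSK, hk S hcup, ?_⟩
  intro d hd
  obtain ⟨w, hw, hwd⟩ := hS d hd
  have hadj : ∀ s ∈ S, s = d ∨ (diskGraph c r).Adj s d := by
    intro s hs
    by_cases hsd : s = d
    · exact Or.inl hsd
    · exact Or.inr (hK (hSK hs) hd hsd)
  rcases le_total (∑ s ∈ S, w s * xco c b s) (xco c b d) with hx | hx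
  · exact Or.inl ⟨hadj, w, hw, hwd, hx⟩
  · exact Or.inr ⟨hadj, w, hw, hwd, hx⟩

end Pool.Agent.Results.MP_a5c73b_lc.CupFree
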