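import Mathlib
import Pool.Agent.Work.MP_a5c73b_lc.PB.Defs
import Pool.Agent.Work.MP_a5c73b_lc.PB.Main

/-!
Polynomially many tractable pieces do not cover the maximum cliques of disk graphs, even for radii
in `[1, 1 + ε]`.
-/

set_option autoImplicit false

namespace Pool.Agent.Results.MP_a5c73b_lc.PieceBarrier

open PBar

/-- For all `k`, `t ≥ 1`, `m ≥ 1` and `ε > 0` there is a family of at most `60 (k + 1) t² m²` closed
disks with rational centres and rational radii in `[1, 1 + ε]` such that every finite family `𝓑`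
of sets of disks which contains each maximum clique in one of its members, and each member of
which induces a perfect graph, or contains no `k + 1` disjoint sets on which the complement of the
disk graph is not bipartite, or induces a graph whose complement has no induced `t × t` grid,
satisfies `(16k + 16) ^ m ≤ |𝓑| (16k + 15) ^ m`. -/
theorem result (k t m : ℕ) (ht : 1 ≤ t) (hm : 1 ≤ m) (ε : ℝ) (hε : 0 < ε) :
    ∃ (ι : Type) (_ : Fintype ι) (x y r : ι → ℚ),
      Fintype.card ι ≤ 60 * (k + 1) * t ^ 2 * m ^ 2 ∧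
      (∀ i, 1 ≤ r i ∧ (r i : ℝ) ≤ 1 + ε) ∧
      ∀ 𝓑 : Finset (Set ι),
        (∀ B ∈ 𝓑, Perf (diskG x y r) B ∨ ¬ OddPack (diskG x y r) B (k + 1) ∨
          GridFree (diskG x y r) B t) →
        (∀ K : Finset ι, (diskG x y r).IsMaximumClique K →
          ∃ B ∈ 𝓑, (K : Set ι) ⊆ B) →
        (16 * k + 16) ^ m ≤ 𝓑.card * (16 * k + 15) ^ m :=
  main k t m ht hm ε hε

end Pool.Agent.Results.MP_a5c73b_lc.PieceBarrier
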