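import Mathlib
import Pool.Agent.Work.MP_a5c73b_lc.S.Defs
import Pool.Agent.Work.MP_a5c73b_lc.S.SampleFin

/-!
Certificates of size `O(√T)` found in a random sample of `T` disks cover all but a fraction
`O(log T / √T)` of a maximum clique of disks.
-/

set_option autoImplicit false

namespace Pool.Agent.Results.MP_a5c73b_lc.SampleCover

open Pool.Agent.Work.MP_a5c73b_lc.S

/-- Part 1. Let `K` be a nonempty maximum clique of a family of disks, `v` a disk of `K` of least
radius and `N` the set of the disks which are not smaller than `v` and equal or meet `v`. Then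
`K ⊆ N`, `|N| ≤ 9 |K|`, and for every `T ≥ 1` at least half of the sequences of `T` disks of `N`
contain a certificate `(X, A)` with at most `50 √T` disks and at most `50 √T` directions (`A` of
odd length) whose two cliques `Plus c r X A`, `Minus c r X A` cover `K` up to a fraction
`3000 (1 + log T) / √T`. Part 2. Every nonempty finite clique has such certificates. -/
theorem result :
    (∀ (ι : Type) (c : ι → Plane) (r : ι → ℝ), (∀ i, 0 ≤ r i) →
      ∀ K : Finset ι, K.Nonempty → (diskGraph c r).IsClique (K : Set ι) →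
      (∀ K' : Finset ι, (diskGraph c r).IsClique (K' : Set ι) → K'.card ≤ K.card) →
      ∀ v ∈ K, (∀ i ∈ K, r v ≤ r i) →
      ∀ N : Finset ι, (∀ i, i ∈ N ↔ r v ≤ r i ∧ (i = v ∨ (diskGraph c r).Adj i v)) →
      K ⊆ N ∧ N.card ≤ 9 * K.card ∧ ∀ T : ℕ, 1 ≤ T →
        (N.card : ℝ) ^ T ≤ 2 * (({ρ : Fin T → {i // i ∈ N} | ∃ (X : Finset ι) (A : List Plane),
          Certifies c r K (fun t => (ρ t : ι)) (50 * Nat.sqrt T)
            (3000 * (1 + Real.log T) / Real.sqrt T) X A} :
            Set (Fin T → {i // i ∈ N})).ncard : ℝ)) ∧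
    (∀ (ι : Type) (c : ι → Plane) (r : ι → ℝ) (K : Finset ι), K.Nonempty →
      (diskGraph c r).IsClique (K : Set ι) → ∀ T : ℕ, 1 ≤ T →
      ∃ (X : Finset ι) (A : List Plane), X ⊆ K ∧ X.card ≤ 50 * Nat.sqrt T ∧ Odd A.length ∧
        A.length ≤ 50 * Nat.sqrt T ∧ (∀ a ∈ A, a ∈ dirs c r K) ∧
        (((K : Set ι) \ (Plus c r X A ∪ Minus c r X A)).ncard : ℝ) ≤
          3000 * (1 + Real.log T) / Real.sqrt T * K.card) :=
  sample_core

end Pool.Agent.Results.MP_a5c73b_lc.SampleCover
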