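import Mathlib
import Pool.Agent.Work.MP_a5c73b_lc.S.Defs
import Pool.Agent.Work.MP_a5c73b_lc.S.Main

/-!
Cliques of disks are covered by `n ^ O(√k)` explicit unions of two cliques.
-/

set_option autoImplicit false

namespace Pool.Agent.Results.MP_a5c73b_lc.SqrtCover

open Pool.Agent.Work.MP_a5c73b_lc.S

/-- (1) For every finite set `X` of disks and every list `A` of an odd number of nonzero vectors,
`Plus c r X A` and `Minus c r X A` are cliques of the disk graph. (2) For every nonempty finite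
clique `K` there are `X ⊆ K` with at most `50 √|K|` elements and a list `A` of odd length at most
`50 √|K|`, with entries in the set `dirs c r K` of at most `4 |K|²` directions, such that
`K ⊆ Plus c r X A ∪ Minus c r X A`. (3) For `n ≥ 2` disks and every `k` there is a family of at most
`n ^ (350 √k)` unions of two cliques which covers every clique with at most `k` elements. (4) For
`n` disks with clique number at most `ω` there is a family of at most `n (9 ω) ^ (350 √ω)` unions
of two cliques which covers every nonempty clique. -/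
theorem result :
    (∀ (ι : Type) (c : ι → Plane) (r : ι → ℝ), (∀ i, 0 ≤ r i) →
      (∀ (X : Finset ι) (A : List Plane), Odd A.length → (∀ a ∈ A, a ≠ 0) →
        (diskGraph c r).IsClique (Plus c r X A) ∧ (diskGraph c r).IsClique (Minus c r X A)) ∧
      (∀ K : Finset ι, K.Nonempty → (diskGraph c r).IsClique (K : Set ι) →
        ((dirs c r K).Finite ∧ (dirs c r K).ncard ≤ 4 * K.card ^ 2) ∧
        ∃ (X : Finset ι) (A : List Plane), X ⊆ K ∧ X.Nonempty ∧
          X.card ≤ 50 * Nat.sqrt K.card ∧ Odd A.length ∧ A.length ≤ 50 * Nat.sqrt K.card ∧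
          (∀ a ∈ A, a ∈ dirs c r K) ∧ (K : Set ι) ⊆ Plus c r X A ∪ Minus c r X A)) ∧
    (∀ n : ℕ, 2 ≤ n → ∀ (c : Fin n → Plane) (r : Fin n → ℝ), (∀ i, 0 ≤ r i) → ∀ k : ℕ,
      ∃ F : Finset (Finset (Fin n)), F.card ≤ n ^ (350 * Nat.sqrt k) ∧
        (∀ B ∈ F, ∃ P Q : Finset (Fin n), B = P ∪ Q ∧
          (diskGraph c r).IsClique (P : Set (Fin n)) ∧
          (diskGraph c r).IsClique (Q : Set (Fin n))) ∧
        ∀ K : Finset (Fin n), (diskGraph c r).IsClique (K : Set (Fin n)) → K.card ≤ k →
          ∃ B ∈ F, K ⊆ B) ∧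
    (∀ (n : ℕ) (c : Fin n → Plane) (r : Fin n → ℝ), (∀ i, 0 ≤ r i) → ∀ ω : ℕ,
      (∀ K : Finset (Fin n), (diskGraph c r).IsClique (K : Set (Fin n)) → K.card ≤ ω) →
      ∃ F : Finset (Finset (Fin n)), F.card ≤ n * (9 * ω) ^ (350 * Nat.sqrt ω) ∧
        (∀ B ∈ F, ∃ P Q : Finset (Fin n), B = P ∪ Q ∧
          (diskGraph c r).IsClique (P : Set (Fin n)) ∧
          (diskGraph c r).IsClique (Q : Set (Fin n))) ∧
        ∀ K : Finset (Fin n), K.Nonempty → (diskGraph c r).IsClique (K : Set (Fin n)) →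
          ∃ B ∈ F, K ⊆ B) :=
  result_core

end Pool.Agent.Results.MP_a5c73b_lc.SqrtCover
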